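import Pool.Agent.H73.GWT.Stmts

/-!
# Row GST of board `gwt`: the good step
-/

set_option autoImplicit false

namespace GWT

variable {ι G V : Type*} [Fintype ι] [Group G] [MulAction G V] (C : Code ι G V)

theorem GST (h1 : IN1Stmt C) : GSTStmt C := by
  obtain ⟨-, -, hc2, hc3⟩ := h1
  intro g u s hl hr
  have e2 : (C.c s) ^ 2 • C.o = C.c s • C.c s • C.o := by rw [smul_smul, pow_two]
  have e3 : (C.c s) ^ 3 • C.o = C.c s • (C.c s) ^ 2 • C.o := by rw [smul_smul, ← pow_succ']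
  have e4 : (C.c s) ^ 4 • C.o = C.c s • (C.c s) ^ 3 • C.o := by rw [smul_smul, ← pow_succ']
  have e3' : (C.c s) ^ 3 • C.o = (C.c s) ^ 4 • (C.c s)⁻¹ • C.o := by
    rw [smul_smul]; congr 1; group
  have ez : (g * C.c s ^ 4 * u) • C.o = g • (C.c s) ^ 4 • u • C.o := by
    rw [smul_smul, smul_smul]
  have a1 : C.T.dist (g • C.o) (g • C.c s • C.o) = C.Λ := by rw [C.ds]; exact C.d1 s
  have a2 : C.T.dist (g • C.o) (g • (C.c s) ^ 2 • C.o) = 2 * C.Λ := by rw [C.ds]; exact hc2 s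
  have a3 : C.T.dist (g • C.o) (g • (C.c s) ^ 3 • C.o) = 3 * C.Λ := by rw [C.ds]; exact hc3 s
  have a4 : C.T.dist (g • C.o) (g • (C.c s) ^ 4 • C.o) = 4 * C.Λ := by rw [C.ds]; exact C.d4 s
  have b1 : C.T.dist (g • C.c s • C.o) (g • (C.c s) ^ 2 • C.o) = C.Λ := by
    rw [C.ds, e2, C.ds]; exact C.d1 s
  have b2 : C.T.dist (g • (C.c s) ^ 2 • C.o) (g • (C.c s) ^ 3 • C.o) = C.Λ := by
    rw [C.ds, e3, e2, C.ds, C.ds]; exact C.d1 s
  have b3 : C.T.dist (g • (C.c s) ^ 3 • C.o) (g • (C.c s) ^ 4 • C.o) = C.Λ := by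
    rw [C.ds, e4, e3, e2, C.ds, C.ds, C.ds]; exact C.d1 s
  refine GOO C.tree C.o (g • C.o) (g • C.c s • C.o) (g • (C.c s) ^ 2 • C.o)
    (g • (C.c s) ^ 3 • C.o) (g • (C.c s) ^ 4 • C.o) ((g * C.c s ^ 4 * u) • C.o) C.Λ C.Λ_pos
    a1 a2 a3 a4 b1 b2 b3 hl ?_
  intro h
  apply hr
  rw [ez, e3', C.ds, C.ds, C.ds, C.ds] at h
  exact h

end GWT
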